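import Mathlib

set_option autoImplicit false

/-! # The space of real sequences with summable square roots -/

namespace Pool.Agent.H53

noncomputable section

open scoped Topology
open Filter

/-- square root of the absolute value -/
def rt (t : ℝ) : ℝ := Real.sqrt |t|

lemma rt_nonneg (t : ℝ) : 0 ≤ rt t := Real.sqrt_nonneg _

@[simp] lemma rt_zero : rt 0 = 0 := by simp [rt]

@[simp] lemma rt_neg (t : ℝ) : rt (-t) = rt t := by simp [rt]

lemma rt_eq_zero {t : ℝ} : rt t = 0 ↔ t = 0 := by
  unfold rt
  rw [Real.sqrt_eq_zero (abs_nonneg t), abs_eq_zero]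

lemma rt_mul (s t : ℝ) : rt (s * t) = rt s * rt t := by
  unfold rt
  rw [abs_mul, Real.sqrt_mul (abs_nonneg s)]

lemma rt_sq (t : ℝ) : rt t ^ 2 = |t| := by
  unfold rt
  exact Real.sq_sqrt (abs_nonneg t)

lemma rt_add_le (s t : ℝ) : rt (s + t) ≤ rt s + rt t := by
  unfold rt
  rw [Real.sqrt_le_left (by positivity)]
  have h1 := Real.sq_sqrt (abs_nonneg s)
  have h2 := Real.sq_sqrt (abs_nonneg t)
  have h3 := abs_add_le s t
  nlinarith [Real.sqrt_nonneg |s|, Real.sqrt_nonneg |t|,
    mul_nonneg (Real.sqrt_nonneg |s|) (Real.sqrt_nonneg |t|)]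

lemma rt_sum_le {ι : Type*} (s : Finset ι) (f : ι → ℝ) :
    rt (∑ i ∈ s, f i) ≤ ∑ i ∈ s, rt (f i) := by
  classical
  induction s using Finset.induction_on with
  | empty => simp
  | insert a s ha ih =>
    rw [Finset.sum_insert ha, Finset.sum_insert ha]
    exact (rt_add_le _ _).trans (by linarith)

lemma continuous_rt : Continuous rt := by
  unfold rt
  fun_prop

/-- the carrier as a submodule of all sequences -/
def LSub : Submodule ℝ (ℕ → ℝ) where
  carrier := {x | Summable fun i => rt (x i)}
  add_mem' := by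
    intro x y hx hy
    refine Summable.of_nonneg_of_le (fun i => rt_nonneg _) (fun i => rt_add_le _ _)
      (Summable.add hx hy)
  zero_mem' := by
    simp only [Set.mem_ofPred_eq, Pi.zero_apply, rt_zero]
    exact summable_zero
  smul_mem' := by
    intro c x hx
    simp only [Set.mem_ofPred_eq, Pi.smul_apply, smul_eq_mul, rt_mul]
    exact Summable.mul_left _ hx

/-- sequences with summable square roots -/
def L : Type := LSub

instance : AddCommGroup L := inferInstanceAs (AddCommGroup LSub)
instance : Module ℝ L := inferInstanceAs (Module ℝ LSub)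

instance : CoeFun L (fun _ => ℕ → ℝ) := ⟨fun x => x.1⟩

lemma L.ext {x y : L} (h : ∀ i, x i = y i) : x = y := Subtype.ext (funext h)

lemma L.summable (x : L) : Summable fun i => rt (x i) := x.2

@[simp] lemma L.add_apply (x y : L) (i : ℕ) : (x + y) i = x i + y i := rfl
@[simp] lemma L.sub_apply (x y : L) (i : ℕ) : (x - y) i = x i - y i := rfl
@[simp] lemma L.neg_apply (x : L) (i : ℕ) : (-x) i = - x i := rfl
@[simp] lemma L.zero_apply (i : ℕ) : (0 : L) i = 0 := rfl
@[simp] lemma L.smul_apply (c : ℝ) (x : L) (i : ℕ) : (c • x) i = c * x i := rfl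

/-- coordinates as linear maps -/
def coord (i : ℕ) : L →ₗ[ℝ] ℝ where
  toFun := fun x => x i
  map_add' := fun _ _ => rfl
  map_smul' := fun _ _ => rfl

lemma coord_apply (i : ℕ) (x : L) : coord i x = x i := rfl

@[simp] lemma L.sum_apply {ι : Type*} (s : Finset ι) (f : ι → L) (i : ℕ) :
    (∑ k ∈ s, f k) i = ∑ k ∈ s, f k i :=
  map_sum (coord i) f s

/-- the F-norm -/
def nrm (x : L) : ℝ := ∑' i, rt (x i)

lemma nrm_nonneg (x : L) : 0 ≤ nrm x := tsum_nonneg fun _ => rt_nonneg _

/-- the group norm -/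
def grpNorm : AddGroupNorm L where
  toFun := nrm
  map_zero' := by simp [nrm]
  add_le' := by
    intro x y
    unfold nrm
    rw [← (x.summable.tsum_add y.summable)]
    refine Summable.tsum_le_tsum (fun i => ?_) (x + y).summable (x.summable.add y.summable)
    exact rt_add_le _ _
  neg' := by
    intro x
    simp [nrm]
  eq_zero_of_map_eq_zero' := by
    intro x hx
    have hx' : (∑' i, rt (x i)) = 0 := hx
    apply L.ext
    intro i
    have h0 : rt (x i) ≤ 0 := by
      rw [← hx']
      exact x.summable.le_tsum i (fun j _ => rt_nonneg _)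
    have := le_antisymm h0 (rt_nonneg _)
    simpa using rt_eq_zero.1 this

instance : NormedAddCommGroup L := AddGroupNorm.toNormedAddCommGroup grpNorm

lemma norm_def (x : L) : ‖x‖ = ∑' i, rt (x i) := rfl

lemma norm_smul_L (c : ℝ) (x : L) : ‖c • x‖ = rt c * ‖x‖ := by
  rw [norm_def, norm_def, ← tsum_mul_left]
  simp [rt_mul]

lemma sum_rt_le_norm (s : Finset ℕ) (x : L) : ∑ i ∈ s, rt (x i) ≤ ‖x‖ := by
  rw [norm_def]
  exact x.summable.sum_le_tsum s (fun j _ => rt_nonneg _)

lemma rt_le_norm (i : ℕ) (x : L) : rt (x i) ≤ ‖x‖ := by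
  simpa using sum_rt_le_norm {i} x

instance : ContinuousSMul ℝ L := by
  constructor
  rw [continuous_iff_continuousAt]
  rintro ⟨t₀, x₀⟩
  unfold ContinuousAt
  rw [tendsto_iff_norm_sub_tendsto_zero]
  have key : ∀ p : ℝ × L, ‖p.1 • p.2 - t₀ • x₀‖ ≤
      rt (p.1 - t₀) * ‖p.2‖ + rt t₀ * ‖p.2 - x₀‖ := by
    rintro ⟨t, x⟩
    have : t • x - t₀ • x₀ = (t - t₀) • x + t₀ • (x - x₀) := by
      rw [sub_smul, smul_sub]; abel
    simp only [this]
    refine (norm_add_le _ _).trans ?_
    rw [norm_smul_L, norm_smul_L]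
  refine squeeze_zero (fun _ => norm_nonneg _) key ?_
  have hc : Continuous fun p : ℝ × L => rt (p.1 - t₀) * ‖p.2‖ + rt t₀ * ‖p.2 - x₀‖ := by
    have := continuous_rt
    fun_prop
  have := hc.tendsto (t₀, x₀)
  simpa using this

/-- restriction to a set of coordinates -/
def restr (S : Set ℕ) [DecidablePred (· ∈ S)] : L →ₗ[ℝ] L where
  toFun := fun x => ⟨fun i => if i ∈ S then x i else 0, by
    refine Summable.of_nonneg_of_le (fun i => rt_nonneg _) (fun i => ?_) x.summable
    by_cases h : i ∈ S
    · simp [h]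
    · simp [h, rt_nonneg]⟩
  map_add' := by
    intro x y
    apply L.ext
    intro i
    show (if i ∈ S then (x + y) i else 0) = (if i ∈ S then x i else 0) + (if i ∈ S then y i else 0)
    split_ifs <;> simp
  map_smul' := by
    intro c x
    apply L.ext
    intro i
    show (if i ∈ S then (c • x) i else 0) = c * (if i ∈ S then x i else 0)
    split_ifs <;> simp

lemma restr_apply (S : Set ℕ) [DecidablePred (· ∈ S)] (x : L) (i : ℕ) :
    restr S x i = if i ∈ S then x i else 0 := rfl

lemma norm_restr_le (S : Set ℕ) [DecidablePred (· ∈ S)] (x : L) : ‖restr S x‖ ≤ ‖x‖ := by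
  rw [norm_def, norm_def]
  refine Summable.tsum_le_tsum (fun i => ?_) (restr S x).summable x.summable
  rw [restr_apply]
  split_ifs
  · exact le_rfl
  · simp [rt_nonneg]

/-- unit vectors -/
def e (k : ℕ) : L := ⟨Pi.single k 1, by
  refine summable_of_ne_finset_zero (s := {k}) ?_
  intro i hi
  have : i ≠ k := by simpa using hi
  simp [this]⟩

lemma e_apply (k i : ℕ) : e k i = if i = k then 1 else 0 := by
  show (Pi.single k 1 : ℕ → ℝ) i = _
  rw [Pi.single_apply]

lemma norm_e (k : ℕ) : ‖e k‖ = 1 := by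
  rw [norm_def, tsum_eq_single k]
  · simp [e_apply, rt]
  · intro i hi
    simp [e_apply, hi]

/-- tails tend to zero -/
lemma tendsto_restr (x : L) :
    Tendsto (fun n => ‖x - restr (Set.Iio n) x‖) atTop (𝓝 0) := by
  have h1 : ∀ n, ‖x - restr (Set.Iio n) x‖ = ∑' i, rt (x (i + n)) := by
    intro n
    have hs := (x - restr (Set.Iio n) x).summable
    rw [norm_def, ← hs.sum_add_tsum_nat_add n]
    have : ∑ i ∈ Finset.range n, rt ((x - restr (Set.Iio n) x) i) = 0 := by
      apply Finset.sum_eq_zero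
      intro i hi
      have : i < n := Finset.mem_range.1 hi
      simp [restr_apply, this]
    rw [this, zero_add]
    apply tsum_congr
    intro i
    simp [restr_apply]
  simp only [h1]
  exact tendsto_sum_nat_add (fun i => rt (x i))

/-- a restriction to an initial segment is a combination of unit vectors -/
lemma restr_Iio_eq (x : L) (n : ℕ) :
    restr (Set.Iio n) x = ∑ i ∈ Finset.range n, x i • e i := by
  apply L.ext
  intro j
  rw [restr_apply, L.sum_apply]
  simp only [L.smul_apply, e_apply, mul_ite, mul_one, mul_zero]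
  rw [Finset.sum_ite_eq (Finset.range n) j]
  simp

lemma dense_span_e : Dense (Submodule.span ℝ (Set.range e) : Set L) := by
  intro x
  rw [Metric.mem_closure_iff]
  intro ε hε
  have := (tendsto_restr x).eventually (gt_mem_nhds hε)
  obtain ⟨n, hn⟩ := this.exists
  refine ⟨restr (Set.Iio n) x, ?_, ?_⟩
  · rw [restr_Iio_eq]
    refine Submodule.sum_mem _ fun i _ => Submodule.smul_mem _ _ (Submodule.subset_span ⟨i, rfl⟩)
  · rw [dist_eq_norm]
    exact hn

instance : TopologicalSpace.SeparableSpace L := by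
  have h1 : TopologicalSpace.IsSeparable (Set.range e) := (Set.countable_range e).isSeparable
  have h2 : TopologicalSpace.IsSeparable (Submodule.span ℝ (Set.range e) : Set L) := h1.span
  have h3 := h2.closure
  rw [dense_span_e.closure_eq] at h3
  exact TopologicalSpace.isSeparable_univ_iff.1 h3

instance : CompleteSpace L := by
  apply Metric.complete_of_cauchySeq_tendsto
  intro u hu
  -- coordinates are Cauchy
  have hrt : ∀ i n m, |u n i - u m i| ≤ ‖u n - u m‖ ^ 2 := by
    intro i n m
    rw [← rt_sq]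
    have := rt_le_norm i (u n - u m)
    rw [L.sub_apply] at this
    exact pow_le_pow_left₀ (rt_nonneg _) this 2
  have hc : ∀ i, CauchySeq fun n => u n i := by
    intro i
    rw [Metric.cauchySeq_iff'] at hu ⊢
    intro ε hε
    obtain ⟨N, hN⟩ := hu (Real.sqrt ε) (Real.sqrt_pos.2 hε)
    refine ⟨N, fun n hn => ?_⟩
    rw [Real.dist_eq]
    refine (hrt i n N).trans_lt ?_
    have h1 := hN n hn
    rw [dist_eq_norm] at h1
    calc ‖u n - u N‖ ^ 2 < (Real.sqrt ε) ^ 2 :=
          pow_lt_pow_left₀ h1 (norm_nonneg _) (by norm_num)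
      _ = ε := Real.sq_sqrt hε.le
  choose x hx using fun i => cauchySeq_tendsto_of_complete (hc i)
  -- estimate
  have hest : ∀ ε > 0, ∃ N, ∀ n ≥ N, ∀ s : Finset ℕ, ∑ i ∈ s, rt (u n i - x i) ≤ ε := by
    intro ε hε
    rw [Metric.cauchySeq_iff] at hu
    obtain ⟨N, hN⟩ := hu ε hε
    refine ⟨N, fun n hn s => ?_⟩
    have hlim : Tendsto (fun m => ∑ i ∈ s, rt (u n i - u m i)) atTop
        (𝓝 (∑ i ∈ s, rt (u n i - x i))) := by
      refine tendsto_finsetSum _ fun i _ => ?_
      exact (continuous_rt.tendsto _).comp (tendsto_const_nhds.sub (hx i))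
    refine le_of_tendsto hlim ?_
    filter_upwards [eventually_ge_atTop N] with m hm
    have := hN n hn m hm
    rw [dist_eq_norm] at this
    refine le_trans ?_ this.le
    exact sum_rt_le_norm s (u n - u m)
  obtain ⟨N, hN⟩ := hest 1 one_pos
  have hsum1 : Summable fun i => rt (u N i - x i) :=
    summable_of_sum_le (fun i => rt_nonneg _) (hN N le_rfl)
  have hxmem : x ∈ LSub := by
    have h1 : (fun i => u N i - x i) ∈ LSub := hsum1
    have h2 : (fun i => u N i) ∈ LSub := (u N).2
    have h3 := LSub.sub_mem h2 h1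
    have : ((fun i => u N i) - fun i => u N i - x i) = x := by
      funext i
      simp
    rwa [this] at h3
  let X : L := ⟨x, hxmem⟩
  refine ⟨X, ?_⟩
  rw [Metric.tendsto_atTop]
  intro ε hε
  obtain ⟨N, hN⟩ := hest (ε / 2) (by linarith)
  refine ⟨N, fun n hn => ?_⟩
  rw [dist_eq_norm, norm_def]
  have : ∑' i, rt ((u n - X) i) ≤ ε / 2 := by
    refine Real.tsum_le_of_sum_le (fun i => rt_nonneg _) fun s => ?_
    exact hN n hn s
  linarith

end

end Pool.Agent.H53
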