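import Mathlib
import Pool.Agent.H53.LHalf

set_option autoImplicit false

/-! # A rigid quotient of the half-summable sequences -/

namespace Pool.Agent.H53

noncomputable section

open scoped Topology
open Filter

/-- cost of the l-th relation -/
def W (l : ℕ) : ℕ := 2 ^ (l ^ 2 + 2)

/-- block end points -/
def a : ℕ → ℕ
  | 0 => 1
  | l + 1 => a l + 4 ^ l * (a l) ^ 2 * (W l) ^ 2

/-- block lengths -/
def m (l : ℕ) : ℕ := 4 ^ l * (a l) ^ 2 * (W l) ^ 2

lemma a_zero : a 0 = 1 := rfl
lemma a_succ (l : ℕ) : a (l + 1) = a l + m l := rfl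

lemma W_pos (l : ℕ) : 0 < W l := by unfold W; positivity

lemma four_le_W (l : ℕ) : 4 ≤ W l := by
  unfold W
  calc 4 = 2 ^ 2 := by norm_num
    _ ≤ 2 ^ (l ^ 2 + 2) := Nat.pow_le_pow_right (by norm_num) (by omega)

lemma a_pos (l : ℕ) : 0 < a l := by
  induction l with
  | zero => simp [a]
  | succ l ih => rw [a_succ]; omega

lemma m_pos (l : ℕ) : 0 < m l := by
  unfold m
  have := a_pos l
  have := W_pos l
  positivity

lemma a_lt_succ (l : ℕ) : a l < a (l + 1) := by
  rw [a_succ]
  have := m_pos l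
  omega

lemma a_strictMono : StrictMono a := strictMono_nat_of_lt_succ a_lt_succ

lemma lt_a (l : ℕ) : l < a l := by
  induction l with
  | zero => simp [a]
  | succ l ih =>
    have := a_lt_succ l
    omega

/-- the coefficient of the l-th relation -/
def d (l : ℕ) : ℝ := ((W l : ℝ) / (m l : ℝ)) ^ 2

lemma d_nonneg (l : ℕ) : 0 ≤ d l := by unfold d; positivity

lemma rt_d (l : ℕ) : rt (d l) = (W l : ℝ) / (m l : ℝ) := by
  unfold rt
  rw [abs_of_nonneg (d_nonneg l)]
  unfold d
  exact Real.sqrt_sq (by positivity)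

lemma m_mul_rt_d (l : ℕ) : (m l : ℝ) * rt (d l) = W l := by
  rw [rt_d]
  have : (m l : ℝ) ≠ 0 := by
    have := m_pos l
    positivity
  field_simp

lemma a_mul_sqrt (l : ℕ) : (a l : ℝ) * rt (d l * m l) = (1 / 2) ^ l := by
  have hm : (0 : ℝ) < m l := by
    have := m_pos l
    positivity
  have ha : (0 : ℝ) < a l := by
    have := a_pos l
    positivity
  have hW : (0 : ℝ) < W l := by
    have := W_pos l
    positivity
  have h1 : d l * m l = ((1 / 2) ^ l / a l) ^ 2 := by
    have h2 : d l * m l = (W l : ℝ) ^ 2 / m l := by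
      unfold d
      field_simp
    have h3 : (m l : ℝ) = 4 ^ l * (a l : ℝ) ^ 2 * (W l : ℝ) ^ 2 := by
      unfold m
      push_cast
      ring
    rw [h2, h3]
    have h4 : ((1 / 2 : ℝ) ^ l) ^ 2 = 1 / 4 ^ l := by
      rw [← pow_mul, mul_comm, pow_mul]
      norm_num
      rw [one_div_pow, one_div]
    rw [div_pow, h4]
    field_simp
  rw [h1]
  unfold rt
  rw [abs_of_nonneg (by positivity), Real.sqrt_sq (by positivity)]
  field_simp

/-- the left side of the l-th relation -/
def xx (l : ℕ) : L := e (Nat.unpair (Nat.unpair l).1).1 + e (Nat.unpair (Nat.unpair l).1).2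

lemma xx_pair (i j s : ℕ) : xx (Nat.pair (Nat.pair i j) s) = e i + e j := by
  simp [xx]

lemma xx_supp (l i : ℕ) (hi : a l ≤ i) : xx l i = 0 := by
  have h0 := lt_a l
  have h1 : (Nat.unpair l).1 ≤ l := Nat.unpair_left_le l
  have h2 : (Nat.unpair (Nat.unpair l).1).1 ≤ (Nat.unpair l).1 := Nat.unpair_left_le _
  have h3 : (Nat.unpair (Nat.unpair l).1).2 ≤ (Nat.unpair l).1 := Nat.unpair_right_le _
  unfold xx
  rw [L.add_apply, e_apply, e_apply, if_neg (by omega), if_neg (by omega), add_zero]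

lemma norm_xx_le (l : ℕ) : ‖xx l‖ ≤ 2 := by
  unfold xx
  refine (norm_add_le _ _).trans ?_
  rw [norm_e, norm_e]
  norm_num

/-- sum of the unit vectors of a block -/
def bl (l : ℕ) : L := ∑ i ∈ Finset.Ico (a l) (a (l + 1)), e i

lemma bl_apply (l i : ℕ) : bl l i = if i ∈ Finset.Ico (a l) (a (l + 1)) then 1 else 0 := by
  unfold bl
  rw [L.sum_apply]
  simp only [e_apply]
  rw [Finset.sum_ite_eq]

/-- the relations -/
def r (l : ℕ) : L := xx l - d l • bl l

lemma block_unique {k k' i : ℕ} (h : i ∈ Finset.Ico (a k) (a (k + 1)))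
    (h' : i ∈ Finset.Ico (a k') (a (k' + 1))) : k = k' := by
  rw [Finset.mem_Ico] at h h'
  rcases lt_trichotomy k k' with hlt | heq | hgt
  · have := a_strictMono.monotone (show k + 1 ≤ k' from hlt)
    omega
  · exact heq
  · have := a_strictMono.monotone (show k' + 1 ≤ k from hgt)
    omega

lemma sum_blocks (f g : ℕ → ℝ) (l M : ℕ) (hlM : l ≤ M)
    (hf : ∀ k, l ≤ k → k < M → ∀ i ∈ Finset.Ico (a k) (a (k + 1)), f i = g k) :
    ∑ i ∈ Finset.Ico (a l) (a M), f i = ∑ k ∈ Finset.Ico l M, (m k : ℝ) * g k := by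
  induction M, hlM using Nat.le_induction with
  | base => simp
  | succ M hM ih =>
    rw [Finset.sum_Ico_succ_top hM, ← ih (fun k h1 h2 i hi => hf k h1 (by omega) i hi),
      ← Finset.sum_Ico_consecutive f (a_strictMono.monotone hM) (a_lt_succ M).le]
    congr 1
    rw [Finset.sum_congr rfl (hf M hM (by omega)), Finset.sum_const, Nat.card_Ico, a_succ]
    simp

lemma block_sum_lower (u : ℕ → ℝ) (l M : ℕ) (hlM : l ≤ M) :
    ∑ k ∈ Finset.Ico l M, rt (u k) * W k ≤ ‖∑ k ∈ Finset.Ico l M, (u k * d k) • bl k‖ := by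
  set y : L := ∑ k ∈ Finset.Ico l M, (u k * d k) • bl k with hy
  have h1 : ∑ i ∈ Finset.Ico (a l) (a M), rt (y i) =
      ∑ k ∈ Finset.Ico l M, (m k : ℝ) * rt (u k * d k) := by
    apply sum_blocks _ _ l M hlM
    intro k hk1 hk2 i hi
    congr 1
    rw [hy, L.sum_apply, Finset.sum_eq_single_of_mem k (Finset.mem_Ico.2 ⟨hk1, hk2⟩)]
    · rw [L.smul_apply, bl_apply, if_pos hi, mul_one]
    · intro k' _ hk'
      rw [L.smul_apply, bl_apply, if_neg, mul_zero]
      intro hmem
      exact hk' (block_unique hmem hi)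
  have h2 := sum_rt_le_norm (Finset.Ico (a l) (a M)) y
  rw [h1] at h2
  refine le_trans (le_of_eq ?_) h2
  refine Finset.sum_congr rfl fun k _ => ?_
  rw [rt_mul]
  calc rt (u k) * W k = rt (u k) * ((m k : ℝ) * rt (d k)) := by rw [m_mul_rt_d]
    _ = _ := by ring

/-- the tail projection kills small indices -/
lemma tail_r (l k : ℕ) (hk : k < l) : restr (Set.Ici (a l)) (r k) = 0 := by
  apply L.ext
  intro i
  rw [restr_apply]
  split_ifs with h
  · have hi : a l ≤ i := h
    have h1 : a (k + 1) ≤ a l := a_strictMono.monotone hk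
    have h2 := a_lt_succ k
    unfold r
    rw [L.sub_apply, L.smul_apply, xx_supp k i (by omega), bl_apply, if_neg]
    · simp
    · rw [Finset.mem_Ico]; omega
  · rfl

lemma tail_bl (l k : ℕ) (hk : l ≤ k) : restr (Set.Ici (a l)) (bl k) = bl k := by
  apply L.ext
  intro i
  rw [restr_apply]
  split_ifs with h
  · rfl
  · have hi : ¬ a l ≤ i := h
    have h1 : a l ≤ a k := a_strictMono.monotone hk
    rw [bl_apply, if_neg]
    rw [Finset.mem_Ico]; omega

lemma head_r (l k : ℕ) (hk : k < l) : restr (Set.Iio (a l)) (r k) = r k := by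
  apply L.ext
  intro i
  rw [restr_apply]
  split_ifs with h
  · rfl
  · have hi : ¬ i < a l := h
    have h1 : a (k + 1) ≤ a l := a_strictMono.monotone hk
    have h2 := a_lt_succ k
    unfold r
    rw [L.sub_apply, L.smul_apply, xx_supp k i (by omega), bl_apply, if_neg]
    · simp
    · rw [Finset.mem_Ico]; omega

lemma head_bl (l k : ℕ) (hk : l ≤ k) : restr (Set.Iio (a l)) (bl k) = 0 := by
  apply L.ext
  intro i
  rw [restr_apply]
  split_ifs with h
  · have hi : i < a l := h
    have h1 : a l ≤ a k := a_strictMono.monotone hk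
    rw [bl_apply, if_neg]
    · rfl
    · rw [Finset.mem_Ico]; omega
  · rfl

lemma head_xx (l : ℕ) : restr (Set.Iio (a l)) (xx l) = xx l := by
  apply L.ext
  intro i
  rw [restr_apply]
  split_ifs with h
  · rfl
  · have hi : ¬ i < a l := h
    exact (xx_supp l i (by omega)).symm

lemma split_sum (u : ℕ → ℝ) (l M : ℕ) (hlM : l ≤ M) :
    ∑ k ∈ Finset.range M, u k • r k =
      ∑ k ∈ Finset.range l, u k • r k + ∑ k ∈ Finset.Ico l M, u k • r k :=
  (Finset.sum_range_add_sum_Ico _ hlM).symm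

/-- first estimate: the coefficients of late relations are small -/
lemma L1 (u : ℕ → ℝ) (l M : ℕ) (hlM : l ≤ M) (z w : L)
    (hz : restr (Set.Ici (a l)) z = 0) :
    ∑ k ∈ Finset.Ico l M, rt (u k) * ((W k : ℝ) - 2) ≤
      ‖z - w - ∑ k ∈ Finset.range M, u k • r k‖ + ‖w‖ := by
  set h : L := z - w - ∑ k ∈ Finset.range M, u k • r k with hh
  set Q := restr (Set.Ici (a l)) with hQ
  have h1 : ∑ k ∈ Finset.Ico l M, (u k * d k) • bl k =
      Q h + Q w + ∑ k ∈ Finset.Ico l M, u k • Q (xx k) := by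
    rw [hh, split_sum u l M hlM, map_sub, map_sub, map_add, map_sum, map_sum, hz]
    have e1 : ∑ k ∈ Finset.range l, Q (u k • r k) = 0 := by
      apply Finset.sum_eq_zero
      intro k hk
      rw [map_smul, hQ, tail_r l k (Finset.mem_range.1 hk), smul_zero]
    have e2 : ∑ k ∈ Finset.Ico l M, Q (u k • r k) =
        ∑ k ∈ Finset.Ico l M, u k • Q (xx k) - ∑ k ∈ Finset.Ico l M, (u k * d k) • bl k := by
      rw [← Finset.sum_sub_distrib]
      refine Finset.sum_congr rfl fun k hk => ?_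
      unfold r
      rw [map_smul, map_sub, map_smul, hQ, tail_bl l k (Finset.mem_Ico.1 hk).1, smul_sub, smul_smul]
    rw [e1, e2]
    abel
  have h2 := block_sum_lower u l M hlM
  rw [h1] at h2
  have h3 : ‖Q h + Q w + ∑ k ∈ Finset.Ico l M, u k • Q (xx k)‖ ≤
      ‖h‖ + ‖w‖ + ∑ k ∈ Finset.Ico l M, rt (u k) * 2 := by
    refine (norm_add_le _ _).trans (add_le_add ((norm_add_le _ _).trans
      (add_le_add (norm_restr_le _ _) (norm_restr_le _ _))) ?_)
    refine (norm_sum_le _ _).trans (Finset.sum_le_sum fun k _ => ?_)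
    rw [norm_smul_L]
    exact mul_le_mul_of_nonneg_left ((norm_restr_le _ _).trans (norm_xx_le k)) (rt_nonneg _)
  have h4 : ∑ k ∈ Finset.Ico l M, rt (u k) * ((W k : ℝ) - 2) =
      ∑ k ∈ Finset.Ico l M, rt (u k) * (W k : ℝ) - ∑ k ∈ Finset.Ico l M, rt (u k) * 2 := by
    rw [← Finset.sum_sub_distrib]
    exact Finset.sum_congr rfl fun k _ => by ring
  rw [h4]
  linarith

/-- second identity: the head -/
lemma L2 (u : ℕ → ℝ) (l M : ℕ) (hlM : l ≤ M) (z w : L)
    (hz : restr (Set.Iio (a l)) z = z) :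
    z - ∑ k ∈ Finset.range l, u k • r k =
      ∑ k ∈ Finset.Ico l M, u k • restr (Set.Iio (a l)) (xx k) +
      (restr (Set.Iio (a l)) (z - w - ∑ k ∈ Finset.range M, u k • r k) +
        restr (Set.Iio (a l)) w) := by
  set P := restr (Set.Iio (a l)) with hP
  rw [split_sum u l M hlM, map_sub, map_sub, map_add, map_sum, map_sum, hz]
  have e1 : ∑ k ∈ Finset.range l, P (u k • r k) = ∑ k ∈ Finset.range l, u k • r k := by
    refine Finset.sum_congr rfl fun k hk => ?_
    rw [map_smul, hP, head_r l k (Finset.mem_range.1 hk)]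
  have e2 : ∑ k ∈ Finset.Ico l M, P (u k • r k) = ∑ k ∈ Finset.Ico l M, u k • P (xx k) := by
    refine Finset.sum_congr rfl fun k hk => ?_
    unfold r
    rw [map_smul, map_sub, map_smul, hP, head_bl l k (Finset.mem_Ico.1 hk).1, smul_zero, sub_zero]
  rw [e1, e2]
  abel

end

end Pool.Agent.H53
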