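import Mathlib
import Pool.Agent.H53.Rigid

set_option autoImplicit false

/-! # The rigid space -/

namespace Pool.Agent.H53

noncomputable section

open scoped Topology
open Filter

/-- the closed span of the relations -/
def R : Submodule ℝ L := (Submodule.span ℝ (Set.range r)).topologicalClosure

instance : IsClosed (R : Set L) := Submodule.isClosed_topologicalClosure _

lemma r_mem (k : ℕ) : r k ∈ R :=
  Submodule.le_topologicalClosure _ (Submodule.subset_span ⟨k, rfl⟩)

lemma sum_mem_R (u : ℕ → ℝ) (s : Finset ℕ) : ∑ k ∈ s, u k • r k ∈ R :=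
  Submodule.sum_mem _ fun k _ => Submodule.smul_mem _ _ (r_mem k)

lemma approx_R {x : L} (hx : x ∈ R) {δ : ℝ} (hδ : 0 < δ) :
    ∃ u : ℕ → ℝ, ∃ M₀ : ℕ, ∀ M ≥ M₀, ‖x - ∑ k ∈ Finset.range M, u k • r k‖ < δ := by
  have hx' : x ∈ closure (Submodule.span ℝ (Set.range r) : Set L) := hx
  rw [Metric.mem_closure_iff] at hx'
  obtain ⟨y, hy, hxy⟩ := hx' δ hδ
  have hy' : y ∈ Submodule.span ℝ (Set.range r) := hy
  rw [Finsupp.mem_span_range_iff_exists_finsupp] at hy'
  obtain ⟨c, hc⟩ := hy'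
  obtain ⟨M₀, hM₀⟩ : ∃ M₀, ∀ k ∈ c.support, k < M₀ := by
    refine ⟨c.support.sup id + 1, fun k hk => ?_⟩
    have : id k ≤ c.support.sup id := Finset.le_sup hk
    simp only [id] at this
    omega
  refine ⟨fun k => c k, M₀, fun M hM => ?_⟩
  have : ∑ k ∈ Finset.range M, c k • r k = y := by
    rw [← hc, Finsupp.sum]
    symm
    apply Finset.sum_subset
    · intro k hk
      exact Finset.mem_range.2 (lt_of_lt_of_le (hM₀ k hk) hM)
    · intro k _ hk
      rw [Finsupp.notMem_support_iff.1 hk, zero_smul]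
  rw [this, ← dist_eq_norm]
  exact hxy

/-- the rigid space -/
abbrev N : Type := L ⧸ R

/-- quotient map -/
abbrev q : L →ₗ[ℝ] N := R.mkQ

lemma norm_q_le (x : L) : ‖q x‖ ≤ ‖x‖ := Submodule.Quotient.norm_mk_le R x

lemma exists_rep (y : N) {δ : ℝ} (hδ : 0 < δ) : ∃ x : L, q x = y ∧ ‖x‖ < ‖y‖ + δ :=
  Submodule.Quotient.norm_mk_lt y hδ

lemma continuous_q : Continuous (fun x : L => (q x : N)) := continuous_quot_mk

instance : TopologicalSpace.SeparableSpace N :=
  (Function.Surjective.denseRange R.mkQ_surjective).separableSpace continuous_q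

lemma q_eq_zero {x : L} : q x = 0 ↔ x ∈ R := by
  rw [← LinearMap.mem_ker, Submodule.ker_mkQ]

lemma q_xx (l : ℕ) : q (xx l) = d l • ∑ i ∈ Finset.Ico (a l) (a (l + 1)), q (e i) := by
  have h := q_eq_zero.2 (r_mem l)
  unfold r bl at h
  rw [map_sub, map_smul, map_sum, sub_eq_zero] at h
  exact h

lemma norm_smul_N_le (t : ℝ) (y : N) : ‖t • y‖ ≤ rt t * ‖y‖ := by
  refine le_of_forall_pos_le_add fun ε hε => ?_
  obtain ⟨x, hx, hxy⟩ := exists_rep y (δ := ε / (rt t + 1)) (by have := rt_nonneg t; positivity)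
  have h1 : ‖t • y‖ ≤ rt t * ‖x‖ := by
    rw [← hx, ← map_smul, ← norm_smul_L]
    exact norm_q_le _
  refine h1.trans ?_
  have h2 := rt_nonneg t
  calc rt t * ‖x‖ ≤ rt t * (‖y‖ + ε / (rt t + 1)) := mul_le_mul_of_nonneg_left hxy.le h2
    _ = rt t * ‖y‖ + ε * (rt t / (rt t + 1)) := by ring
    _ ≤ rt t * ‖y‖ + ε * 1 := by
        have : rt t / (rt t + 1) ≤ 1 := by
          rw [div_le_one (by linarith)]
          linarith
        gcongr
    _ = _ := by ring

/-- a functional or operator that is continuous is bounded on the unit vectors, at the level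
of norms with the homogeneity exponent one half -/
lemma small_scale {V : Type*} [SeminormedAddCommGroup V] [Module ℝ V] (A : N →ₗ[ℝ] V)
    (hA : Continuous A) : ∃ t : ℝ, 0 < t ∧ ∀ k, ‖A (t • q (e k))‖ < 1 := by
  have h0 : ContinuousAt A 0 := hA.continuousAt
  rw [Metric.continuousAt_iff] at h0
  obtain ⟨ρ, hρ, h⟩ := h0 1 one_pos
  refine ⟨(ρ / 2) ^ 2, by positivity, fun k => ?_⟩
  have h1 : dist (((ρ / 2) ^ 2) • q (e k)) (0 : N) < ρ := by
    rw [dist_zero_right, ← map_smul]
    refine (norm_q_le _).trans_lt ?_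
    rw [norm_smul_L, norm_e, mul_one]
    unfold rt
    rw [abs_of_nonneg (by positivity), Real.sqrt_sq (by positivity)]
    linarith
  have h2 := h h1
  rwa [map_zero, dist_zero_right] at h2

/-- the dual of `N` is trivial -/
lemma dual_trivial (f : N →ₗ[ℝ] ℝ) (hf : Continuous f) : f = 0 := by
  obtain ⟨t, ht, hb⟩ := small_scale f hf
  have hC : ∀ k, |f (q (e k))| ≤ 1 / t := by
    intro k
    have := hb k
    rw [map_smul, smul_eq_mul, Real.norm_eq_abs, abs_mul, abs_of_pos ht] at this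
    rw [le_div_iff₀ ht]
    linarith
  have hx : ∀ l, |f (q (xx l))| ≤ (1 / t) * ((1 / 2) ^ l) ^ 2 := by
    intro l
    rw [q_xx, map_smul, map_sum, smul_eq_mul, abs_mul, abs_of_nonneg (d_nonneg l)]
    have h1 : |∑ i ∈ Finset.Ico (a l) (a (l + 1)), f (q (e i))| ≤ m l * (1 / t) := by
      refine (Finset.abs_sum_le_sum_abs _ _).trans ?_
      refine (Finset.sum_le_sum fun i _ => hC i).trans ?_
      rw [Finset.sum_const, Nat.card_Ico, a_succ]
      simp
    have h2 : d l * m l ≤ ((1 / 2) ^ l) ^ 2 := by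
      rw [← a_mul_sqrt l, mul_pow, rt_sq, abs_of_nonneg (by have := d_nonneg l; positivity)]
      have h3 : (1 : ℝ) ≤ (a l : ℝ) ^ 2 := by
        have : (1 : ℝ) ≤ a l := by exact_mod_cast a_pos l
        nlinarith
      have h4 : 0 ≤ d l * m l := by have := d_nonneg l; positivity
      nlinarith
    calc d l * |∑ i ∈ Finset.Ico (a l) (a (l + 1)), f (q (e i))|
        ≤ d l * (m l * (1 / t)) := mul_le_mul_of_nonneg_left h1 (d_nonneg l)
      _ = (1 / t) * (d l * m l) := by ring
      _ ≤ _ := mul_le_mul_of_nonneg_left h2 (by positivity)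
  have hzero : ∀ i, f (q (e i)) = 0 := by
    intro i
    have h1 : ∀ s, |f (q (e i + e i))| ≤ (1 / t) * (1 / 2) ^ s := by
      intro s
      have h2 := hx (Nat.pair (Nat.pair i i) s)
      rw [xx_pair] at h2
      refine h2.trans ?_
      rw [← pow_mul]
      refine mul_le_mul_of_nonneg_left ?_ (by positivity)
      apply pow_le_pow_of_le_one (by norm_num) (by norm_num)
      have := Nat.right_le_pair (Nat.pair i i) s
      omega
    have h2 : Tendsto (fun s : ℕ => (1 / t) * (1 / 2 : ℝ) ^ s) atTop (𝓝 0) := by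
      have := (tendsto_pow_atTop_nhds_zero_of_lt_one (r := (1 / 2 : ℝ)) (by norm_num)
        (by norm_num)).const_mul (1 / t)
      simpa using this
    have h3 : |f (q (e i + e i))| ≤ 0 := ge_of_tendsto' h2 h1
    have h4 : f (q (e i + e i)) = 0 := abs_eq_zero.1 (le_antisymm h3 (abs_nonneg _))
    rw [map_add, map_add] at h4
    linarith
  -- density
  have hcont : Continuous fun x : L => f (q x) :=
    hf.comp continuous_q
  have hz : ∀ x : L, f (q x) = 0 := by
    have hcl : IsClosed {x : L | f (q x) = 0} := isClosed_eq hcont continuous_const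
    have hsub : (Submodule.span ℝ (Set.range e) : Set L) ⊆ {x : L | f (q x) = 0} := by
      intro x hx
      have : x ∈ LinearMap.ker (f ∘ₗ q) := by
        have hle : Submodule.span ℝ (Set.range e) ≤ LinearMap.ker (f ∘ₗ q) := by
          rw [Submodule.span_le]
          rintro _ ⟨i, rfl⟩
          exact hzero i
        exact hle hx
      simpa using this
    intro x
    exact hcl.closure_subset_iff.2 hsub (dense_span_e x)
  ext x
  simpa using hz x

/-- the space is not zero -/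
lemma q_e_zero_ne : q (e 0) ≠ 0 := by
  intro h
  rw [q_eq_zero] at h
  obtain ⟨u, M₀, hu⟩ := approx_R h (δ := 1 / 2) (by norm_num)
  have h1 := hu M₀ le_rfl
  have hz : restr (Set.Ici (a 0)) (e 0) = 0 := by
    apply L.ext
    intro i
    rw [restr_apply, e_apply]
    split_ifs with h h'
    · have : a 0 ≤ i := h
      rw [a_zero] at this
      omega
    · rfl
    · rfl
  have hz' : restr (Set.Iio (a 0)) (e 0) = e 0 := by
    apply L.ext
    intro i
    rw [restr_apply, e_apply]
    split_ifs with h h'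
    · rfl
    · rfl
    · have : ¬ i < a 0 := h
      rw [a_zero] at this
      omega
    · rfl
  have e1 := L1 u 0 M₀ (Nat.zero_le _) (e 0) 0 hz
  have e2 := L2 u 0 M₀ (Nat.zero_le _) (e 0) 0 hz'
  rw [sub_zero, norm_zero, add_zero] at e1
  rw [sub_zero, map_zero, add_zero, Finset.range_zero, Finset.sum_empty, sub_zero] at e2
  have e3 : (1 : ℝ) ≤ ∑ k ∈ Finset.Ico 0 M₀, rt (u k) * 2 +
      ‖e 0 - ∑ k ∈ Finset.range M₀, u k • r k‖ := by
    have h2 : ‖e 0‖ ≤ ‖∑ k ∈ Finset.Ico 0 M₀, u k • restr (Set.Iio (a 0)) (xx k)‖ +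
        ‖restr (Set.Iio (a 0)) (e 0 - ∑ k ∈ Finset.range M₀, u k • r k)‖ := by
      conv_lhs => rw [e2]
      exact norm_add_le _ _
    rw [norm_e] at h2
    refine h2.trans (add_le_add ?_ (norm_restr_le _ _))
    refine (norm_sum_le _ _).trans (Finset.sum_le_sum fun k _ => ?_)
    rw [norm_smul_L]
    exact mul_le_mul_of_nonneg_left ((norm_restr_le _ _).trans (norm_xx_le k)) (rt_nonneg _)
  have e4 : ∑ k ∈ Finset.Ico 0 M₀, rt (u k) * 2 ≤
      ∑ k ∈ Finset.Ico 0 M₀, rt (u k) * ((W k : ℝ) - 2) := by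
    refine Finset.sum_le_sum fun k _ => mul_le_mul_of_nonneg_left ?_ (rt_nonneg _)
    have : (4 : ℝ) ≤ W k := by exact_mod_cast four_le_W k
    linarith
  linarith

lemma W_growth (l k : ℕ) (hk : l + 1 ≤ k) : (4 : ℝ) ^ l * W l ≤ (W k : ℝ) - 2 := by
  have h1 : 2 * (4 ^ l * W l) ≤ W k := by
    unfold W
    have : (4 : ℕ) ^ l = 2 ^ (2 * l) := by rw [pow_mul]; norm_num
    rw [this, ← pow_add, ← pow_succ']
    apply Nat.pow_le_pow_right (by norm_num)
    nlinarith
  have h2 : (4 : ℕ) ≤ 4 ^ l * W l := by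
    have := four_le_W l
    have : 1 ≤ 4 ^ l := Nat.one_le_pow _ _ (by norm_num)
    nlinarith
  have h1' : 2 * ((4 : ℝ) ^ l * W l) ≤ W k := by exact_mod_cast h1
  have h2' : (4 : ℝ) ≤ (4 : ℝ) ^ l * W l := by exact_mod_cast h2
  linarith

/-- Main estimate. -/
lemma main_estimate (A : N →ₗ[ℝ] N) (C : ℝ) (hC : 0 ≤ C) (y : ℕ → L)
    (hy : ∀ k, q (y k) = A (q (e k))) (hyC : ∀ k, ‖y k‖ ≤ C) (z : L) (l : ℕ)
    (hz : q z = A (q (xx l))) :
    ∃ t : ℝ, ‖A (q (xx l)) - t • q (xx l)‖ ≤
      2 * ‖z - restr (Set.Iio (a l)) z‖ +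
      2 * (((1 / 2) ^ l + ‖z - restr (Set.Iio (a l)) z‖ + C) / 4 ^ l) +
      (1 / 2) ^ l + C * (1 / 2) ^ l := by
  set τ := ‖z - restr (Set.Iio (a l)) z‖ with hτ
  set P := restr (Set.Iio (a l)) with hP
  set δ : ℝ := (1 / 2) ^ l with hδ
  have hδ0 : 0 < δ := by positivity
  set w : L := d l • ∑ i ∈ Finset.Ico (a l) (a (l + 1)), y i with hw
  have hqw : q w = A (q (xx l)) := by
    rw [hw, q_xx, map_smul, map_smul, map_sum, map_sum]
    congr 1
    exact Finset.sum_congr rfl fun i _ => hy i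
  have hmem : z - w ∈ R := by
    rw [← q_eq_zero, map_sub, hz, hqw, sub_self]
  obtain ⟨u, M₀, hu⟩ := approx_R hmem hδ0
  set M := max M₀ (l + 1) with hM
  have hlM : l + 1 ≤ M := le_max_right _ _
  have hu' := hu M (le_max_left _ _)
  have hnw : ‖w‖ ≤ W l * C := by
    rw [hw, norm_smul_L]
    have h1 : ‖∑ i ∈ Finset.Ico (a l) (a (l + 1)), y i‖ ≤ m l * C := by
      refine (norm_sum_le _ _).trans ?_
      refine (Finset.sum_le_sum fun i _ => hyC i).trans ?_
      rw [Finset.sum_const, Nat.card_Ico, a_succ]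
      simp
    calc rt (d l) * ‖∑ i ∈ Finset.Ico (a l) (a (l + 1)), y i‖ ≤ rt (d l) * (m l * C) :=
          mul_le_mul_of_nonneg_left h1 (rt_nonneg _)
      _ = (m l * rt (d l)) * C := by ring
      _ = W l * C := by rw [m_mul_rt_d]
  have hPw : ‖P w‖ ≤ C * (1 / 2) ^ l := by
    have h1 : P w = ∑ i ∈ Finset.range (a l), w i • e i := restr_Iio_eq w (a l)
    have h2 : ∀ i, rt (w i) ≤ rt (d l * m l) * C := by
      intro i
      have h3 : |w i| ≤ (d l * m l) * C ^ 2 := by
        rw [hw, L.smul_apply, L.sum_apply, abs_mul, abs_of_nonneg (d_nonneg l), mul_assoc]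
        refine mul_le_mul_of_nonneg_left ?_ (d_nonneg l)
        refine (Finset.abs_sum_le_sum_abs _ _).trans ?_
        have h4 : ∀ k ∈ Finset.Ico (a l) (a (l + 1)), |y k i| ≤ C ^ 2 := by
          intro k _
          rw [← rt_sq]
          exact pow_le_pow_left₀ (rt_nonneg _) ((rt_le_norm i (y k)).trans (hyC k)) 2
        refine (Finset.sum_le_sum h4).trans ?_
        rw [Finset.sum_const, Nat.card_Ico, a_succ]
        simp
      have h5 : rt (w i) ≤ Real.sqrt ((d l * m l) * C ^ 2) := by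
        unfold rt
        exact Real.sqrt_le_sqrt h3
      refine h5.trans (le_of_eq ?_)
      have h6 : 0 ≤ d l * m l := by have := d_nonneg l; positivity
      rw [Real.sqrt_mul h6, Real.sqrt_sq hC]
      unfold rt
      rw [abs_of_nonneg h6]
    rw [h1]
    refine (norm_sum_le _ _).trans ?_
    have h7 : ∀ i ∈ Finset.range (a l), ‖w i • e i‖ ≤ rt (d l * m l) * C := by
      intro i _
      rw [norm_smul_L, norm_e, mul_one]
      exact h2 i
    refine (Finset.sum_le_sum h7).trans (le_of_eq ?_)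
    rw [Finset.sum_const, Finset.card_range, nsmul_eq_mul, ← mul_assoc, a_mul_sqrt]
    ring
  -- the error vector
  set z₀ := P z with hz₀
  set h : L := z₀ - w - ∑ k ∈ Finset.range M, u k • r k with hh
  have hnh : ‖h‖ ≤ δ + τ := by
    have : h = (z - w - ∑ k ∈ Finset.range M, u k • r k) - (z - z₀) := by
      rw [hh]; abel
    rw [this]
    refine (norm_sub_le _ _).trans ?_
    exact add_le_add hu'.le le_rfl
  have hz1 : restr (Set.Ici (a (l + 1))) z₀ = 0 := by
    apply L.ext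
    intro i
    rw [restr_apply, hz₀, hP, restr_apply]
    have := a_lt_succ l
    split_ifs with h1 h2
    · have h1' : a (l + 1) ≤ i := h1
      have h2' : i < a l := h2
      omega
    · rfl
    · rfl
  have hz2 : P z₀ = z₀ := by
    apply L.ext
    intro i
    rw [hz₀, hP, restr_apply, restr_apply]
    split_ifs <;> rfl
  have E1 := L1 u (l + 1) M hlM z₀ w hz1
  rw [← hh] at E1
  have E2 := L2 u l M (by omega) z₀ w hz2
  rw [← hh, ← hP] at E2
  set η := ∑ k ∈ Finset.Ico (l + 1) M, rt (u k) with hη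
  have hη1 : η * ((4 : ℝ) ^ l * W l) ≤ δ + τ + W l * C := by
    calc η * ((4 : ℝ) ^ l * W l) = ∑ k ∈ Finset.Ico (l + 1) M, rt (u k) * ((4 : ℝ) ^ l * W l) := by
          rw [hη, Finset.sum_mul]
      _ ≤ ∑ k ∈ Finset.Ico (l + 1) M, rt (u k) * ((W k : ℝ) - 2) := by
          refine Finset.sum_le_sum fun k hk => mul_le_mul_of_nonneg_left ?_ (rt_nonneg _)
          exact W_growth l k (Finset.mem_Ico.1 hk).1
      _ ≤ ‖h‖ + ‖w‖ := E1
      _ ≤ _ := by linarith
  have hτ0 : 0 ≤ τ := norm_nonneg _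
  have hη2 : η ≤ (δ + τ + C) / 4 ^ l := by
    have hW : (1 : ℝ) ≤ W l := by exact_mod_cast W_pos l
    have h4 : (0 : ℝ) < 4 ^ l := by positivity
    rw [le_div_iff₀ h4]
    have h5 : η * 4 ^ l * W l ≤ (δ + τ + C) * W l := by nlinarith
    exact le_of_mul_le_mul_right h5 (by linarith)
  have E3 : z₀ - u l • xx l - ∑ k ∈ Finset.range l, u k • r k =
      ∑ k ∈ Finset.Ico (l + 1) M, u k • P (xx k) + (P h + P w) := by
    rw [Finset.sum_eq_sum_Ico_succ_bot (by omega : l < M)] at E2
    have h8 : P (xx l) = xx l := head_xx l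
    rw [h8] at E2
    have : z₀ - u l • xx l - ∑ k ∈ Finset.range l, u k • r k =
      (z₀ - ∑ k ∈ Finset.range l, u k • r k) - u l • xx l := by abel
    rw [this, E2]
    abel
  have E4 : ‖z₀ - u l • xx l - ∑ k ∈ Finset.range l, u k • r k‖ ≤
      2 * η + (δ + τ + C * (1 / 2) ^ l) := by
    rw [E3]
    refine (norm_add_le _ _).trans (add_le_add ?_ ((norm_add_le _ _).trans
      (add_le_add ((norm_restr_le _ _).trans hnh) hPw)))
    refine (norm_sum_le _ _).trans ?_
    rw [hη, Finset.mul_sum]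
    refine Finset.sum_le_sum fun k _ => ?_
    rw [norm_smul_L, mul_comm]
    exact mul_le_mul_of_nonneg_right ((norm_restr_le _ _).trans (norm_xx_le k)) (rt_nonneg _)
  refine ⟨u l, ?_⟩
  have E5 : A (q (xx l)) - u l • q (xx l) =
      q (z - z₀) + q (z₀ - u l • xx l - ∑ k ∈ Finset.range l, u k • r k) := by
    rw [map_sub, map_sub, map_sub, map_smul, q_eq_zero.2 (sum_mem_R u (Finset.range l)), hz]
    abel
  rw [E5]
  refine (norm_add_le _ _).trans ?_
  have E6 : ‖q (z - z₀)‖ ≤ τ := norm_q_le _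
  have E7 := (norm_q_le (z₀ - u l • xx l - ∑ k ∈ Finset.range l, u k • r k)).trans E4
  linarith

end

end Pool.Agent.H53
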