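import Mathlib
import Pool.Agent.H53.Space

set_option autoImplicit false

/-! # Real and complex F-spaces without cyclic operators

The rigid real space `N` of `Pool.Agent.H53.Space` and its complexification `NC`; the spaces
`N × ℝ^ℕ` over the reals and `NC × ℂ^ℕ` over the complex numbers, with complete translation
invariant metrics. -/

namespace Pool.Agent.H53.Both

open Pool.Agent.H53 Filter
open scoped Topology

noncomputable section

/-- every operator on `N` has each `e i + e j` as an eigenvector -/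
lemma eigen (A : N →L[ℝ] N) (i j : ℕ) :
    ∃ t : ℝ, A (q (e i) + q (e j)) = t • (q (e i) + q (e j)) := by
  obtain ⟨s, hs, hb⟩ := small_scale (A : N →ₗ[ℝ] N) A.continuous
  set C : ℝ := rt s⁻¹ with hCdef
  have hC : 0 ≤ C := rt_nonneg _
  have hrep : ∀ k, ∃ y : L, q y = A (q (e k)) ∧ ‖y‖ ≤ C := by
    intro k
    obtain ⟨x, hx, hxn⟩ := exists_rep (A (s • q (e k))) (δ := 1 - ‖A (s • q (e k))‖)
      (by have : ‖A (s • q (e k))‖ < 1 := hb k
          linarith)
    refine ⟨s⁻¹ • x, ?_, ?_⟩
    · rw [map_smul, hx, map_smul, smul_smul, inv_mul_cancel₀ hs.ne', one_smul]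
    · rw [norm_smul_L]
      have h1 : ‖x‖ ≤ 1 := by linarith
      calc rt s⁻¹ * ‖x‖ ≤ rt s⁻¹ * 1 := mul_le_mul_of_nonneg_left h1 (rt_nonneg _)
        _ = C := by rw [mul_one]
  choose y hy hyC using hrep
  obtain ⟨z, hz⟩ := R.mkQ_surjective (A (q (e i) + q (e j)))
  have hclosed : IsClosed ((Submodule.span ℝ {q (e i) + q (e j)} : Submodule ℝ N) : Set N) :=
    Submodule.closed_of_finiteDimensional _
  have hmem : A (q (e i) + q (e j)) ∈
      closure ((Submodule.span ℝ {q (e i) + q (e j)} : Submodule ℝ N) : Set N) := by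
    rw [Metric.mem_closure_iff]
    intro ε hε
    -- the error tends to zero along the good indices
    have hidx : Tendsto (fun n => a (Nat.pair (Nat.pair i j) n)) atTop atTop := by
      refine tendsto_atTop_mono (fun n => ?_) tendsto_id
      have h1 := Nat.right_le_pair (Nat.pair i j) n
      have h2 := lt_a (Nat.pair (Nat.pair i j) n)
      simp only [id]
      omega
    have hidx' : Tendsto (fun n => Nat.pair (Nat.pair i j) n) atTop atTop := by
      refine tendsto_atTop_mono (fun n => ?_) tendsto_id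
      exact Nat.right_le_pair (Nat.pair i j) n
    have hτ : Tendsto (fun n => ‖z - restr (Set.Iio (a (Nat.pair (Nat.pair i j) n))) z‖)
        atTop (𝓝 0) := (tendsto_restr z).comp hidx
    have hhalf : Tendsto (fun n => (1 / 2 : ℝ) ^ (Nat.pair (Nat.pair i j) n)) atTop (𝓝 0) :=
      (tendsto_pow_atTop_nhds_zero_of_lt_one (by norm_num) (by norm_num)).comp hidx'
    have hquart : Tendsto (fun n => (1 / 4 : ℝ) ^ (Nat.pair (Nat.pair i j) n)) atTop (𝓝 0) :=
      (tendsto_pow_atTop_nhds_zero_of_lt_one (by norm_num) (by norm_num)).comp hidx'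
    have herr : Tendsto (fun n =>
        2 * ‖z - restr (Set.Iio (a (Nat.pair (Nat.pair i j) n))) z‖ +
        2 * (((1 / 2 : ℝ) ^ (Nat.pair (Nat.pair i j) n) +
          ‖z - restr (Set.Iio (a (Nat.pair (Nat.pair i j) n))) z‖ + C) *
          (1 / 4 : ℝ) ^ (Nat.pair (Nat.pair i j) n)) +
        (1 / 2 : ℝ) ^ (Nat.pair (Nat.pair i j) n) +
        C * (1 / 2 : ℝ) ^ (Nat.pair (Nat.pair i j) n)) atTop
        (𝓝 (2 * 0 + 2 * ((0 + 0 + C) * 0) + 0 + C * 0)) :=
      (((hτ.const_mul 2).add ((((hhalf.add hτ).add_const C).mul hquart).const_mul 2)).add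
        hhalf).add (hhalf.const_mul C)
    have h0 : (2 * 0 + 2 * ((0 + 0 + C) * 0) + 0 + C * 0 : ℝ) = 0 := by ring
    rw [h0] at herr
    obtain ⟨n, hn⟩ := (herr.eventually (gt_mem_nhds hε)).exists
    have hxx : q (xx (Nat.pair (Nat.pair i j) n)) = q (e i) + q (e j) := by
      rw [xx_pair, map_add]
    obtain ⟨t, ht⟩ := main_estimate (A : N →ₗ[ℝ] N) C hC y hy hyC z (Nat.pair (Nat.pair i j) n)
      (by rw [hxx]; exact hz)
    rw [hxx] at ht
    refine ⟨t • (q (e i) + q (e j)),
      Submodule.smul_mem _ _ (Submodule.mem_span_singleton_self _), ?_⟩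
    rw [dist_eq_norm]
    refine lt_of_le_of_lt ht ?_
    have h4 : ∀ k : ℕ, (1 / 4 : ℝ) ^ k = 1 / 4 ^ k := fun k => by rw [one_div_pow]
    simp only [h4, mul_one_div] at hn
    exact hn
  rw [hclosed.closure_eq] at hmem
  obtain ⟨t, ht⟩ := Submodule.mem_span_singleton.1 hmem
  exact ⟨t, ht.symm⟩

/-- `N` is rigid -/
lemma rigid (A : N →L[ℝ] N) : ∃ c : ℝ, ∀ y : N, A y = c • y := by
  have hdiag : ∀ i, ∃ t : ℝ, A (q (e i)) = t • q (e i) := by
    intro i
    obtain ⟨t, ht⟩ := eigen A i i
    refine ⟨t, ?_⟩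
    rw [← two_smul ℝ (q (e i)), map_smul, smul_comm t] at ht
    exact smul_right_injective N (two_ne_zero) ht
  obtain ⟨c, hc⟩ := hdiag 0
  have hall : ∀ j, A (q (e j)) = c • q (e j) := by
    intro j
    obtain ⟨μ, hμ⟩ := hdiag j
    obtain ⟨t, ht⟩ := eigen A 0 j
    rw [map_add, hc, hμ, smul_add] at ht
    by_cases htm : t = μ
    · subst htm
      have h1 : (c - t) • q (e 0) = 0 := by
        rw [sub_smul, sub_eq_zero]
        exact add_right_cancel ht
      rcases smul_eq_zero.1 h1 with h2 | h2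
      · rw [hμ]
        congr 1
        linarith
      · exact absurd h2 q_e_zero_ne
    · have h1 : (t - μ) • q (e j) = (c - t) • q (e 0) := by
        rw [sub_smul, sub_smul, sub_eq_sub_iff_add_eq_add, add_comm]
        exact ht.symm
      have h2 : q (e j) = ((t - μ)⁻¹ * (c - t)) • q (e 0) := by
        rw [mul_smul, ← h1, smul_smul, inv_mul_cancel₀ (sub_ne_zero.2 htm), one_smul]
      rw [h2, map_smul, hc, smul_comm]
  refine ⟨c, ?_⟩
  have hcont : Continuous fun x : L => A (q x) :=
    A.continuous.comp continuous_q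
  have hcont2 : Continuous fun x : L => c • q x :=
    continuous_q.const_smul c
  have hcl : IsClosed {x : L | A (q x) = c • q x} := isClosed_eq hcont hcont2
  have hsub : (Submodule.span ℝ (Set.range e) : Set L) ⊆ {x : L | A (q x) = c • q x} := by
    intro x hx
    have hle : Submodule.span ℝ (Set.range e) ≤
        LinearMap.eqLocus ((A : N →ₗ[ℝ] N) ∘ₗ q) (c • q) := by
      rw [Submodule.span_le]
      rintro _ ⟨i, rfl⟩
      exact hall i
    exact hle hx
  intro y
  obtain ⟨x, rfl⟩ := R.mkQ_surjective y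
  exact hcl.closure_subset_iff.2 hsub (dense_span_e x)

lemma not_finiteDimensional_N : ¬ FiniteDimensional ℝ N := by
  intro hfd
  obtain ⟨f, hf⟩ : ∃ f : N →ₗ[ℝ] ℝ, f (q (e 0)) ≠ 0 := by
    by_contra hcon
    push Not at hcon
    exact q_e_zero_ne ((Module.forall_dual_apply_eq_zero_iff ℝ (q (e 0))).1 hcon)
  have := dual_trivial f f.continuous_of_finiteDimensional
  exact hf (by rw [this]; rfl)

/-- a vector all of whose multiples are small vanishes -/
lemma eq_zero_of_line {y : N} (h : ∀ t : ℝ, ‖t • y‖ < 1) : y = 0 := by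
  by_contra hy
  have hpos : 0 < ‖y‖ := norm_pos_iff.2 hy
  have h1 : ∀ t : ℝ, 0 < t → ‖y‖ ≤ rt t⁻¹ := by
    intro t ht
    have h2 : y = t⁻¹ • (t • y) := by
      rw [smul_smul, inv_mul_cancel₀ ht.ne', one_smul]
    calc ‖y‖ = ‖t⁻¹ • (t • y)‖ := by rw [← h2]
      _ ≤ rt t⁻¹ * ‖t • y‖ := norm_smul_N_le _ _
      _ ≤ rt t⁻¹ * 1 := mul_le_mul_of_nonneg_left (h t).le (rt_nonneg _)
      _ = _ := mul_one _
  have h3 := h1 (((‖y‖ / 2) ^ 2)⁻¹) (by positivity)
  rw [inv_inv] at h3
  unfold rt at h3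
  rw [abs_of_nonneg (by positivity), Real.sqrt_sq (by positivity)] at h3
  linarith

/-- A continuous real linear map from `E^ℕ` (`E` finite-dimensional) to `N` has finite-dimensional
range. -/
lemma finite_rank {E : Type} [AddCommGroup E] [Module ℝ E] [TopologicalSpace E]
    [FiniteDimensional ℝ E] (B : (ℕ → E) →L[ℝ] N) :
    ∃ F : Submodule ℝ N, FiniteDimensional ℝ F ∧ ∀ z, B z ∈ F := by
  classical
  have h0 : B ⁻¹' (Metric.ball 0 1) ∈ 𝓝 (0 : ℕ → E) := by
    apply B.continuous.continuousAt.preimage_mem_nhds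
    rw [map_zero]
    exact Metric.ball_mem_nhds _ one_pos
  rw [nhds_pi, Filter.mem_pi] at h0
  obtain ⟨I, hI, V, hV, hsub⟩ := h0
  have hker : ∀ z : ℕ → E, (∀ i ∈ I, z i = 0) → B z = 0 := by
    intro z hz
    apply eq_zero_of_line
    intro t
    have h1 : t • z ∈ B ⁻¹' (Metric.ball 0 1) := by
      apply hsub
      intro i hi
      rw [Pi.smul_apply, hz i hi, smul_zero]
      exact mem_of_mem_nhds (hV i)
    have h2 : B (t • z) ∈ Metric.ball (0 : N) 1 := h1
    rwa [map_smul, mem_ball_zero_iff] at h2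
  refine ⟨hI.toFinset.sup fun i => LinearMap.range ((B : (ℕ → E) →ₗ[ℝ] N) ∘ₗ
    LinearMap.single ℝ (fun _ : ℕ => E) i), ?_, ?_⟩
  · exact Submodule.finiteDimensional_finset_sup _ _
  · intro z
    have h1 : B (z - ∑ i ∈ hI.toFinset, (Pi.single i (z i) : ℕ → E)) = 0 := by
      apply hker
      intro j hj
      rw [Pi.sub_apply, Finset.sum_apply]
      have : ∑ c ∈ hI.toFinset, (Pi.single c (z c) : ℕ → E) j = z j := by
        rw [Finset.sum_eq_single_of_mem j (hI.mem_toFinset.2 hj)]
        · simp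
        · intro b _ hb
          simp [hb.symm]
      rw [this, sub_self]
    rw [map_sub, sub_eq_zero] at h1
    rw [h1, map_sum]
    refine Submodule.sum_mem _ fun i hi => ?_
    exact (Finset.le_sup (f := fun i => LinearMap.range ((B : (ℕ → E) →ₗ[ℝ] N) ∘ₗ
      LinearMap.single ℝ (fun _ : ℕ => E) i)) hi) ⟨z i, rfl⟩

/-! ### the metric on sequences -/

section seq

variable (E : Type) [NormedAddCommGroup E]

/-- sequences in `E` with the metric `∑ min (2^{-n}) |x n - y n|` -/
def Sq : Type := ℕ → E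

instance : AddCommGroup (Sq E) := inferInstanceAs (AddCommGroup (ℕ → E))

instance : MetricSpace (Sq E) := PiCountable.metricSpace (ι := ℕ) (F := fun _ => E)

lemma dist_add_right_Sq (x y z : Sq E) : dist (x + z) (y + z) = dist x y := by
  show ∑' i : ℕ, min (2⁻¹ ^ Encodable.encode i) (dist ((x + z) i) ((y + z) i)) =
    ∑' i : ℕ, min (2⁻¹ ^ Encodable.encode i) (dist (x i) (y i))
  refine tsum_congr fun i => ?_
  have h : dist ((x + z) i) ((y + z) i) = dist (x i) (y i) := dist_add_right (x i) (y i) (z i)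
  rw [h]

instance [CompleteSpace E] : CompleteSpace (Sq E) := inferInstanceAs (CompleteSpace (ℕ → E))

instance [TopologicalSpace.SeparableSpace E] : TopologicalSpace.SeparableSpace (Sq E) :=
  inferInstanceAs (TopologicalSpace.SeparableSpace (ℕ → E))

end seq

section seqmod

variable (𝕂 : Type) [RCLike 𝕂]

instance : Module 𝕂 (Sq 𝕂) := inferInstanceAs (Module 𝕂 (ℕ → 𝕂))

instance : ContinuousSMul 𝕂 (Sq 𝕂) := inferInstanceAs (ContinuousSMul 𝕂 (ℕ → 𝕂))

instance : IsTopologicalAddGroup (Sq 𝕂) := inferInstanceAs (IsTopologicalAddGroup (ℕ → 𝕂))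

/-- the coordinates as continuous functionals -/
def crd (i : ℕ) : Sq 𝕂 →L[𝕂] 𝕂 :=
  (ContinuousLinearMap.proj (R := 𝕂) (φ := fun _ : ℕ => 𝕂) i : (ℕ → 𝕂) →L[𝕂] 𝕂)

/-- the `i`-th unit sequence -/
def unit (i : ℕ) : Sq 𝕂 := (Pi.single i (1 : 𝕂) : ℕ → 𝕂)

lemma crd_unit (i j : ℕ) : crd 𝕂 i (unit 𝕂 j) = if i = j then 1 else 0 := by
  show (Pi.single j (1 : 𝕂) : ℕ → 𝕂) i = _
  rw [Pi.single_apply]

/-- If `X` surjects continuously onto the sequence space, its dual is infinite-dimensional. -/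
lemma dual_infinite {X : Type} [AddCommGroup X] [Module 𝕂 X] [TopologicalSpace X]
    (π : X →L[𝕂] Sq 𝕂) (hπ : Function.Surjective π) : ¬ FiniteDimensional 𝕂 (X →L[𝕂] 𝕂) := by
  intro hfd
  have hli : LinearIndependent 𝕂 (fun k : ℕ => ((crd 𝕂 k).comp π : X →L[𝕂] 𝕂)) := by
    rw [linearIndependent_iff']
    intro s g hg i hi
    obtain ⟨x, hx⟩ := hπ (unit 𝕂 i)
    have h1 := congrArg (fun f : X →L[𝕂] 𝕂 => f x) hg
    simp only [_root_.sum_apply, _root_.smul_apply,
      ContinuousLinearMap.comp_apply, smul_eq_mul, _root_.zero_apply, hx, crd_unit] at h1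
    rw [Finset.sum_eq_single_of_mem i hi] at h1
    · simpa using h1
    · intro b _ hb
      simp [hb]
  have := hli.finite
  exact not_finite ℕ

end seqmod

/-! ### the real space -/

/-- the real space `N × ℝ^ℕ` -/
abbrev XR : Type := N × Sq ℝ

lemma dist_add_right_XR (x y z : XR) : dist (x + z) (y + z) = dist x y := by
  show max (dist (x.1 + z.1) (y.1 + z.1)) (dist (x.2 + z.2) (y.2 + z.2)) =
    max (dist x.1 y.1) (dist x.2 y.2)
  rw [dist_add_right, dist_add_right_Sq]

lemma dual_XR : ¬ FiniteDimensional ℝ (XR →L[ℝ] ℝ) :=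
  dual_infinite ℝ (ContinuousLinearMap.snd ℝ N (Sq ℝ)) (fun z => ⟨((0 : N), z), rfl⟩)

lemma no_cyclic_XR (T : XR →L[ℝ] XR) (x : XR) :
    ¬ Dense (Submodule.span ℝ (Set.range fun n : ℕ => (⇑T)^[n] x) : Set XR) := by
  intro hd
  obtain ⟨c, hc⟩ := rigid ((ContinuousLinearMap.fst ℝ N (Sq ℝ)).comp
    (T.comp (ContinuousLinearMap.inl ℝ N (Sq ℝ))))
  obtain ⟨F, hF, hB⟩ := finite_rank (E := ℝ) ((ContinuousLinearMap.fst ℝ N (Sq ℝ)).comp
    (T.comp (ContinuousLinearMap.inr ℝ N (Sq ℝ))) : (Sq ℝ) →L[ℝ] N)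
  have hstep : ∀ p : XR, (T p).1 - c • p.1 ∈ F := by
    rintro ⟨y, z⟩
    have h1 : ((y, z) : XR) = (y, 0) + (0, z) := by simp
    have h2 : (T (y, 0)).1 = c • y := hc y
    have h3 : (T (0, z)).1 ∈ F := hB z
    rw [h1, map_add]
    simp only [Prod.fst_add, add_zero, h2]
    simpa using h3
  set G : Submodule ℝ N := F ⊔ Submodule.span ℝ {x.1} with hG
  have hfG : FiniteDimensional ℝ G := by
    have : FiniteDimensional ℝ (Submodule.span ℝ {x.1} : Submodule ℝ N) := inferInstance
    exact Submodule.finiteDimensional_sup _ _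
  have horb : ∀ n : ℕ, ((⇑T)^[n] x).1 ∈ G := by
    intro n
    induction n with
    | zero => exact Submodule.mem_sup_right (Submodule.mem_span_singleton_self _)
    | succ n ih =>
      rw [Function.iterate_succ_apply']
      have h1 := hstep ((⇑T)^[n] x)
      have h2 : (T ((⇑T)^[n] x)).1 =
          ((T ((⇑T)^[n] x)).1 - c • ((⇑T)^[n] x).1) + c • ((⇑T)^[n] x).1 := by abel
      rw [h2]
      exact Submodule.add_mem _ (Submodule.mem_sup_left h1) (Submodule.smul_mem _ _ ih)
  have hGcl : IsClosed (G : Set N) := Submodule.closed_of_finiteDimensional G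
  have hcl : IsClosed {p : XR | p.1 ∈ G} := hGcl.preimage continuous_fst
  have hsub : (Submodule.span ℝ (Set.range fun n : ℕ => (⇑T)^[n] x) : Set XR) ⊆
      {p : XR | p.1 ∈ G} := by
    have h5 : Submodule.span ℝ (Set.range fun n : ℕ => (⇑T)^[n] x) ≤
        Submodule.comap (LinearMap.fst ℝ N (Sq ℝ)) G := by
      rw [Submodule.span_le]
      rintro _ ⟨n, rfl⟩
      exact horb n
    exact h5
  have hall : ∀ p : XR, p.1 ∈ G := by
    intro p
    exact hcl.closure_subset_iff.2 hsub (hd p)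
  have htop : G = ⊤ := by
    rw [Submodule.eq_top_iff']
    intro y
    exact hall (y, 0)
  apply not_finiteDimensional_N
  rw [htop] at hfG
  exact Module.finite_def.2 ((Submodule.fg_top _).1 (Module.finite_def.1 hfG))

/-! ### the complex space -/

/-- the complexification of `N` -/
def NC : Type := N × N

instance : NormedAddCommGroup NC := inferInstanceAs (NormedAddCommGroup (N × N))
instance : CompleteSpace NC := inferInstanceAs (CompleteSpace (N × N))
instance : TopologicalSpace.SeparableSpace NC :=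
  inferInstanceAs (TopologicalSpace.SeparableSpace (N × N))

/-- the point with the given real and imaginary parts -/
def mk (a b : N) : NC := (a, b)

/-- real part -/
def rp (p : NC) : N := (show N × N from p).1

/-- imaginary part -/
def ip (p : NC) : N := (show N × N from p).2

lemma NC_ext {p q : NC} (h1 : rp p = rp q) (h2 : ip p = ip q) : p = q := Prod.ext h1 h2

@[simp] lemma rp_mk (a b : N) : rp (mk a b) = a := rfl
@[simp] lemma ip_mk (a b : N) : ip (mk a b) = b := rfl
@[simp] lemma rp_add (p q : NC) : rp (p + q) = rp p + rp q := rfl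
@[simp] lemma ip_add (p q : NC) : ip (p + q) = ip p + ip q := rfl
@[simp] lemma rp_zero : rp 0 = 0 := rfl
@[simp] lemma ip_zero : ip 0 = 0 := rfl

lemma continuous_rp : Continuous rp := (continuous_fst : Continuous (Prod.fst : N × N → N))
lemma continuous_ip : Continuous ip := (continuous_snd : Continuous (Prod.snd : N × N → N))

lemma continuous_mk {α : Type*} [TopologicalSpace α] {f g : α → N} (hf : Continuous f)
    (hg : Continuous g) : Continuous fun a => mk (f a) (g a) :=
  (hf.prodMk hg : Continuous fun a => ((f a, g a) : N × N))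

instance : SMul ℂ NC := ⟨fun c p => mk (c.re • rp p - c.im • ip p) (c.re • ip p + c.im • rp p)⟩

@[simp] lemma rp_smul (c : ℂ) (p : NC) : rp (c • p) = c.re • rp p - c.im • ip p := rfl
@[simp] lemma ip_smul (c : ℂ) (p : NC) : ip (c • p) = c.re • ip p + c.im • rp p := rfl

instance : Module ℂ NC where
  one_smul p := NC_ext (by simp) (by simp)
  mul_smul c d p := NC_ext
    (by simp only [rp_smul, ip_smul, Complex.mul_re, Complex.mul_im]; module)
    (by simp only [rp_smul, ip_smul, Complex.mul_re, Complex.mul_im]; module)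
  smul_zero c := NC_ext (by simp) (by simp)
  smul_add c p q := NC_ext (by simp only [rp_smul, rp_add, ip_add]; module)
    (by simp only [ip_smul, rp_add, ip_add]; module)
  add_smul c d p := NC_ext
    (by simp only [rp_smul, rp_add, Complex.add_re, Complex.add_im]; module)
    (by simp only [ip_smul, ip_add, Complex.add_re, Complex.add_im]; module)
  zero_smul p := NC_ext (by simp) (by simp)

instance : ContinuousSMul ℂ NC := by
  constructor
  have h1 : Continuous fun x : ℂ × NC => x.1.re := Complex.continuous_re.comp continuous_fst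
  have h2 : Continuous fun x : ℂ × NC => x.1.im := Complex.continuous_im.comp continuous_fst
  have h3 : Continuous fun x : ℂ × NC => rp x.2 := continuous_rp.comp continuous_snd
  have h4 : Continuous fun x : ℂ × NC => ip x.2 := continuous_ip.comp continuous_snd
  exact continuous_mk ((h1.smul h3).sub (h2.smul h4)) ((h1.smul h4).add (h2.smul h3))

/-- the complex space `N_ℂ × ℂ^ℕ` -/
abbrev XC : Type := NC × Sq ℂ

lemma dist_add_right_XC (x y z : XC) : dist (x + z) (y + z) = dist x y := by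
  show max (dist (x.1 + z.1) (y.1 + z.1)) (dist (x.2 + z.2) (y.2 + z.2)) =
    max (dist x.1 y.1) (dist x.2 y.2)
  rw [dist_add_right, dist_add_right_Sq]

lemma dual_XC : ¬ FiniteDimensional ℂ (XC →L[ℂ] ℂ) :=
  dual_infinite ℂ (ContinuousLinearMap.snd ℂ NC (Sq ℂ)) (fun z => ⟨((0 : NC), z), rfl⟩)

/-- An additive continuous map `N → N` that commutes with real scalars. -/
def toOp (f : N → N) (ha : ∀ x y, f (x + y) = f x + f y) (hs : ∀ (r : ℝ) x, f (r • x) = r • f x)
    (hc : Continuous f) : N →L[ℝ] N :=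
  ⟨⟨⟨f, ha⟩, hs⟩, hc⟩

lemma real_smul_rp (r : ℝ) (p : NC) : rp ((r : ℂ) • p) = r • rp p := by
  rw [rp_smul, Complex.ofReal_re, Complex.ofReal_im, zero_smul, sub_zero]

lemma real_smul_ip (r : ℝ) (p : NC) : ip ((r : ℂ) • p) = r • ip p := by
  rw [ip_smul, Complex.ofReal_re, Complex.ofReal_im, zero_smul, add_zero]

/-- Structure of the `N`-valued real parts of a continuous operator of `XC`. -/
lemma struct_XC (T : XC →L[ℂ] XC) (π : NC → N) (hπ : Continuous π)
    (hadd : ∀ p q, π (p + q) = π p + π q) (hsmul : ∀ (r : ℝ) p, π ((r : ℂ) • p) = r • π p) :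
    ∃ (a b : ℝ) (F : Submodule ℝ N), FiniteDimensional ℝ F ∧
      ∀ p : XC, π (T p).1 - a • rp p.1 - b • ip p.1 ∈ F := by
  have hadd' : ∀ x y : XC, π (T (x + y)).1 = π (T x).1 + π (T y).1 := by
    intro x y
    rw [map_add, Prod.fst_add, hadd]
  have hsmul' : ∀ (r : ℝ) (x : XC), π (T ((r : ℂ) • x)).1 = r • π (T x).1 := by
    intro r x
    rw [map_smul, Prod.smul_fst, hsmul]
  have hcont : Continuous fun x : XC => π (T x).1 := hπ.comp (continuous_fst.comp T.continuous)
  have e1 : ∀ (r : ℝ) (y : N), (((mk (r • y) 0 : NC), (0 : Sq ℂ)) : XC) =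
      (r : ℂ) • ((mk y 0, 0) : XC) := by
    intro r y
    refine Prod.ext (NC_ext ?_ ?_) (smul_zero _).symm
    · rw [Prod.smul_fst, real_smul_rp]
      rfl
    · rw [Prod.smul_fst, real_smul_ip]
      exact (smul_zero r).symm
  have e2 : ∀ (r : ℝ) (y : N), (((mk 0 (r • y) : NC), (0 : Sq ℂ)) : XC) =
      (r : ℂ) • ((mk 0 y, 0) : XC) := by
    intro r y
    refine Prod.ext (NC_ext ?_ ?_) (smul_zero _).symm
    · rw [Prod.smul_fst, real_smul_rp]
      exact (smul_zero r).symm
    · rw [Prod.smul_fst, real_smul_ip]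
      rfl
  have e3 : ∀ z w : Sq ℂ, π (T (((0 : NC), z + w) : XC)).1 =
      π (T (((0 : NC), z) : XC)).1 + π (T (((0 : NC), w) : XC)).1 := by
    intro z w
    have : (((0 : NC), z + w) : XC) = (0, z) + (0, w) := by simp
    rw [this, hadd']
  have e4 : ∀ (r : ℝ) (z : Sq ℂ), π (T (((0 : NC), (r : ℂ) • z) : XC)).1 =
      r • π (T (((0 : NC), z) : XC)).1 := by
    intro r z
    have : (((0 : NC), (r : ℂ) • z) : XC) = (r : ℂ) • ((0, z) : XC) := by
      refine Prod.ext (smul_zero _).symm rfl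
    rw [this, hsmul']
  obtain ⟨a, ha⟩ := rigid (toOp (fun y => π (T ((mk y 0, 0) : XC)).1)
    (fun x y => by
      have : (((mk (x + y) 0 : NC), (0 : Sq ℂ)) : XC) = (mk x 0, 0) + (mk y 0, 0) := by
        refine Prod.ext (NC_ext ?_ ?_) ?_
        · simp
        · simp
        · simp
      show π (T (mk (x + y) 0, 0)).1 = _
      rw [this, hadd'])
    (fun r x => by
      show π (T (mk (r • x) 0, 0)).1 = _
      rw [e1, hsmul'])
    (hcont.comp ((continuous_mk continuous_id continuous_const).prodMk continuous_const)))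
  obtain ⟨b, hb⟩ := rigid (toOp (fun y => π (T ((mk 0 y, 0) : XC)).1)
    (fun x y => by
      have : (((mk 0 (x + y) : NC), (0 : Sq ℂ)) : XC) = (mk 0 x, 0) + (mk 0 y, 0) := by
        refine Prod.ext (NC_ext ?_ ?_) ?_
        · simp
        · simp
        · simp
      show π (T (mk 0 (x + y), 0)).1 = _
      rw [this, hadd'])
    (fun r x => by
      show π (T (mk 0 (r • x), 0)).1 = _
      rw [e2, hsmul'])
    (hcont.comp ((continuous_mk continuous_const continuous_id).prodMk continuous_const)))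
  obtain ⟨F, hF, hB⟩ := finite_rank (E := ℂ)
    (⟨⟨⟨fun z : ℕ → ℂ => π (T (((0 : NC), (z : Sq ℂ)) : XC)).1, fun z w => e3 z w⟩,
      fun r z => by
        have h : (r • z : ℕ → ℂ) = ((r : ℂ) • z : ℕ → ℂ) := by
          funext i
          exact Complex.real_smul
        show π (T (((0 : NC), ((r • z : ℕ → ℂ) : Sq ℂ)) : XC)).1 =
          r • π (T (((0 : NC), (z : Sq ℂ)) : XC)).1
        rw [h]
        exact e4 r z⟩,
      hcont.comp (continuous_const.prodMk continuous_id)⟩ : (ℕ → ℂ) →L[ℝ] N)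
  refine ⟨a, b, F, hF, ?_⟩
  rintro ⟨p, z⟩
  have h1 : ((p, z) : XC) = (mk (rp p) 0, 0) + ((mk 0 (ip p), 0) + (0, z)) := by
    refine Prod.ext (NC_ext ?_ ?_) ?_
    · simp
    · simp
    · simp
  have h2 : π (T ((mk (rp p) 0, 0) : XC)).1 = a • rp p := ha (rp p)
  have h3 : π (T ((mk 0 (ip p), 0) : XC)).1 = b • ip p := hb (ip p)
  have h4 : π (T ((0, z) : XC)).1 ∈ F := hB z
  have h5 : π (T ((p, z) : XC)).1 = a • rp p + (b • ip p + π (T ((0, z) : XC)).1) := by
    rw [h1, hadd', hadd', h2, h3]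
  rw [h5]
  have h6 : a • rp p + (b • ip p + π (T ((0, z) : XC)).1) - a • rp ((p, z) : XC).1 -
      b • ip ((p, z) : XC).1 = π (T ((0, z) : XC)).1 := by
    show a • rp p + (b • ip p + π (T ((0, z) : XC)).1) - a • rp p - b • ip p = _
    abel
  rw [h6]
  exact h4

lemma no_cyclic_XC (T : XC →L[ℂ] XC) (x : XC) :
    ¬ Dense (Submodule.span ℂ (Set.range fun n : ℕ => (⇑T)^[n] x) : Set XC) := by
  intro hd
  obtain ⟨a, b, F, hF, h1⟩ := struct_XC T rp continuous_rp rp_add real_smul_rp
  obtain ⟨a', b', F', hF', h1'⟩ := struct_XC T ip continuous_ip ip_add real_smul_ip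
  set G : Submodule ℝ N := (F ⊔ F') ⊔ (Submodule.span ℝ {rp x.1} ⊔ Submodule.span ℝ {ip x.1})
    with hG
  have hfG : FiniteDimensional ℝ G := by
    have i1 : FiniteDimensional ℝ (Submodule.span ℝ {rp x.1} : Submodule ℝ N) := inferInstance
    have i2 : FiniteDimensional ℝ (Submodule.span ℝ {ip x.1} : Submodule ℝ N) := inferInstance
    have i3 : FiniteDimensional ℝ (F ⊔ F' : Submodule ℝ N) := Submodule.finiteDimensional_sup _ _
    have i4 : FiniteDimensional ℝ (Submodule.span ℝ {rp x.1} ⊔ Submodule.span ℝ {ip x.1} :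
      Submodule ℝ N) := Submodule.finiteDimensional_sup _ _
    exact Submodule.finiteDimensional_sup _ _
  have horb : ∀ n : ℕ, rp ((⇑T)^[n] x).1 ∈ G ∧ ip ((⇑T)^[n] x).1 ∈ G := by
    intro n
    induction n with
    | zero =>
      exact ⟨Submodule.mem_sup_right (Submodule.mem_sup_left (Submodule.mem_span_singleton_self _)),
        Submodule.mem_sup_right (Submodule.mem_sup_right (Submodule.mem_span_singleton_self _))⟩
    | succ n ih =>
      rw [Function.iterate_succ_apply']
      have h2 := h1 ((⇑T)^[n] x)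
      have h2' := h1' ((⇑T)^[n] x)
      constructor
      · have h3 : rp (T ((⇑T)^[n] x)).1 = (rp (T ((⇑T)^[n] x)).1 - a • rp ((⇑T)^[n] x).1 -
            b • ip ((⇑T)^[n] x).1) + (a • rp ((⇑T)^[n] x).1 + b • ip ((⇑T)^[n] x).1) := by abel
        rw [h3]
        exact Submodule.add_mem _ (Submodule.mem_sup_left (Submodule.mem_sup_left h2))
          (Submodule.add_mem _ (Submodule.smul_mem _ _ ih.1) (Submodule.smul_mem _ _ ih.2))
      · have h3 : ip (T ((⇑T)^[n] x)).1 = (ip (T ((⇑T)^[n] x)).1 - a' • rp ((⇑T)^[n] x).1 -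
            b' • ip ((⇑T)^[n] x).1) + (a' • rp ((⇑T)^[n] x).1 + b' • ip ((⇑T)^[n] x).1) := by abel
        rw [h3]
        exact Submodule.add_mem _ (Submodule.mem_sup_left (Submodule.mem_sup_right h2'))
          (Submodule.add_mem _ (Submodule.smul_mem _ _ ih.1) (Submodule.smul_mem _ _ ih.2))
  have hGcl : IsClosed (G : Set N) := Submodule.closed_of_finiteDimensional G
  let W : Submodule ℂ XC :=
    { carrier := {p : XC | rp p.1 ∈ G ∧ ip p.1 ∈ G}
      add_mem' := fun {p q} hp hq => ⟨by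
        show rp (p.1 + q.1) ∈ G
        rw [rp_add]
        exact Submodule.add_mem _ hp.1 hq.1, by
        show ip (p.1 + q.1) ∈ G
        rw [ip_add]
        exact Submodule.add_mem _ hp.2 hq.2⟩
      zero_mem' := ⟨Submodule.zero_mem _, Submodule.zero_mem _⟩
      smul_mem' := fun c p hp => ⟨by
        show rp (c • p.1) ∈ G
        rw [rp_smul]
        exact Submodule.sub_mem _ (Submodule.smul_mem _ _ hp.1) (Submodule.smul_mem _ _ hp.2), by
        show ip (c • p.1) ∈ G
        rw [ip_smul]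
        exact Submodule.add_mem _ (Submodule.smul_mem _ _ hp.2) (Submodule.smul_mem _ _ hp.1)⟩ }
  have hWcl : IsClosed (W : Set XC) :=
    (hGcl.preimage (continuous_rp.comp continuous_fst)).inter
      (hGcl.preimage (continuous_ip.comp continuous_fst))
  have hsub : Submodule.span ℂ (Set.range fun n : ℕ => (⇑T)^[n] x) ≤ W := by
    rw [Submodule.span_le]
    rintro _ ⟨n, rfl⟩
    exact horb n
  have hall : ∀ p : XC, p ∈ W := by
    intro p
    exact hWcl.closure_subset_iff.2 hsub (hd p)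
  have htop : G = ⊤ := by
    rw [Submodule.eq_top_iff']
    intro y
    exact (hall (mk y 0, 0)).1
  apply not_finiteDimensional_N
  rw [htop] at hfG
  exact Module.finite_def.2 ((Submodule.fg_top _).1 (Module.finite_def.1 hfG))

end

end Pool.Agent.H53.Both
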